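import Pool.Agent.W586.GZ.Stm

set_option autoImplicit false
set_option maxHeartbeats 1000000

namespace Pool.Agent.W916.GZSEL

open Pool.Agent.W586.GZ

lemma ev_le_l1 {P : Par} {t : ℕ} {g : ℕ →₀ ℚ} (h : W P (some t) g) {x : ℕ → ℝ} {M : ℕ}
    (hx : ∀ n, x n ≠ 0 → n < M) :
    ev g x ≤ (P.m t : ℝ)⁻¹ * ∑ n ∈ Finset.range M, |x n| := by
  classical
  rw [ev_eq_sum g x (g.support ∪ Finset.range M)
    (fun i hi => Finset.mem_union_left _ (Finsupp.mem_support_iff.mpr hi))]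
  have h1 : ∑ n ∈ Finset.range M, |x n| = ∑ n ∈ g.support ∪ Finset.range M, |x n| := by
    apply Finset.sum_subset Finset.subset_union_right
    intro i _ hi
    by_contra h'
    exact hi (Finset.mem_range.2 (hx i (fun h'' => h' (by simp [h'']))))
  rw [h1, Finset.mul_sum]
  apply Finset.sum_le_sum
  intro i _
  have h2 : (g i : ℝ) ≤ (P.m t : ℝ)⁻¹ := by
    have := h.le_inv i
    have h3 : ((g i : ℚ) : ℝ) ≤ (((P.m t : ℚ)⁻¹ : ℚ) : ℝ) := by exact_mod_cast this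
    push_cast at h3
    exact h3
  exact mul_le_mul_of_nonneg_right h2 (abs_nonneg _)

theorem main : S_AVG → S_SEL := by
  intro hA P Q hsup M0 q
  choose N M1 x hN hM havg hsupp hQ using hsup
  -- the index after the step
  let nx : ℕ → ℕ × ℕ → ℕ × ℕ := fun l s =>
    (M1 (P.n s.2) s.1, s.2 + 1 + ⌈(2 : ℝ) ^ (l + 1) *
      ∑ n ∈ Finset.range (M1 (P.n s.2) s.1), |x (P.n s.2) s.1 n|⌉₊)
  let st : ℕ → ℕ × ℕ := fun l => Nat.rec (M0, 2 * q + 1) (fun l s => nx l s) l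
  have st0 : st 0 = (M0, 2 * q + 1) := rfl
  have stS : ∀ l, st (l + 1) = nx l (st l) := fun l => rfl
  obtain ⟨c, hc⟩ : ∃ c : ℕ → ℕ, ∀ l, c l = (st l).1 := ⟨_, fun _ => rfl⟩
  obtain ⟨J, hJ⟩ : ∃ J : ℕ → ℕ, ∀ l, J l = (st l).2 := ⟨_, fun _ => rfl⟩
  have hc1 : ∀ l, c (l + 1) = M1 (P.n (J l)) (c l) := by
    intro l; rw [hc (l + 1), stS, hc l, hJ l]
  have hJ1 : ∀ l, J (l + 1) = J l + 1 + ⌈(2 : ℝ) ^ (l + 1) *
      ∑ n ∈ Finset.range (c (l + 1)), |x (P.n (J l)) (c l) n|⌉₊ := by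
    intro l; rw [hc1 l, hJ (l + 1), stS, hc l, hJ l]
  have hJm : StrictMono J := strictMono_nat_of_lt_succ (fun l => by rw [hJ1 l]; omega)
  have hcm : StrictMono c := strictMono_nat_of_lt_succ (fun l => by rw [hc1 l]; exact hM _ _)
  have hsup' : ∀ l n, x (P.n (J l)) (c l) n ≠ 0 → c l ≤ n ∧ n < c (l + 1) := by
    intro l n hn
    rw [hc1 l]
    exact hsupp _ _ n hn
  refine ⟨c, J, fun l => x (P.n (J l)) (c l), ?_, hcm, ?_, ?_, hsup', ?_⟩
  · rw [hc 0, st0]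
  · rw [hJ 0, st0]; show 2 * q < 2 * q + 1; omega
  · intro K
    refine ⟨fun i l hil _ => hJm hil, ?_, ?_, ?_, ?_⟩
    · intro i l hil _ p r hp hr
      have h1 := (hsup' i p hp).2
      have h2 := (hsup' l r hr).1
      have h3 : c (i + 1) ≤ c l := hcm.monotone hil
      omega
    · intro l _ t ht g hg
      refine (hA P _ _ (havg (P.n (J l)) (c l))).2.1 t ?_ g hg
      exact (P.nlt.monotone ht.le).trans (hN _ _)
    · intro l _
      exact (hA P _ _ (havg (P.n (J l)) (c l))).1.mono (by norm_num)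
    · intro l _ t ht g hg
      have h1 := ev_le_l1 hg (x := x (P.n (J l)) (c l)) (M := c (l + 1))
        (fun n hn => (hsup' l n hn).2)
      refine h1.trans ?_
      have hm : (2 : ℝ) ^ (l + 1) * ∑ n ∈ Finset.range (c (l + 1)), |x (P.n (J l)) (c l) n| ≤
          P.m t := by
        refine (Nat.le_ceil _).trans ?_
        have h2 : ⌈(2 : ℝ) ^ (l + 1) *
            ∑ n ∈ Finset.range (c (l + 1)), |x (P.n (J l)) (c l) n|⌉₊ ≤ J (l + 1) := by
          rw [hJ1 l]; omega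
        have h3 : J (l + 1) ≤ P.m t := ht.trans (P.mlt.id_le t)
        exact_mod_cast h2.trans h3
      have hmt := P.mpos' t
      have h2p : (0 : ℝ) < 2 ^ (l + 1) := by positivity
      rw [inv_mul_eq_div, div_le_div_iff₀ hmt h2p]
      nlinarith
  · intro l
    show Q (c l) (c (l + 1)) (x (P.n (J l)) (c l))
    rw [hc1 l]
    exact hQ _ _

end Pool.Agent.W916.GZSEL
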